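import Pool.Agent.helper62.VD.SpecE

set_option autoImplicit false

/-!
# MP_07c750, project VD, block E, row EPR: Poincare recurrence on the quotient

The map `rd ∘ f 1` preserves the finite measure `μ.restrict F0`; the invariant open set of the points which are near a translate of `p` has positive measure there.
-/

open MeasureTheory Filter Set Topology
open scoped ENNReal

namespace Pool.Agent.VDE

/-- the iterates of the reduced time one map -/
theorem EPR_iter (Γ S : Type) [Group Γ] [MulAction Γ S] (F0 : Set S) (f : ℝ → S → S) (hf0 : ∀ x, f 0 x = x) (hfa : ∀ (s t : ℝ) (x : S), f (s + t) x = f s (f t x))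
    (hfe : ∀ (γ : Γ) (t : ℝ) (x : S), f t (γ • x) = γ • f t x) (hrd : ∀ x : S, ∃ γ : Γ, rd Γ F0 x = γ • x) (x : S) (n : ℕ) :
    ∃ γ : Γ, (fun y => rd Γ F0 (f 1 y))^[n] x = γ • f (n : ℝ) x := by
  induction n with
  | zero => exact ⟨1, by simp [hf0]⟩
  | succ n ih =>
    obtain ⟨g, hg⟩ := ih
    obtain ⟨γ, hγ⟩ := hrd (f 1 (g • f (n : ℝ) x))
    refine ⟨γ * g, ?_⟩
    rw [Function.iterate_succ_apply', hg]
    show rd Γ F0 (f 1 (g • f (n : ℝ) x)) = _
    rw [hγ, hfe, mul_smul, ← hfa, Nat.cast_succ, add_comm (1 : ℝ) (n : ℝ)]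

theorem EPR_proof (h1 : ERD_stmt) : EPR_stmt := by
  intro Γ S _ _ _ _ _ μ F0 K d f hB p δ hδ
  obtain ⟨hrF, hrinv, hrid, hrd, hrm, hunf, hpres⟩ := h1 Γ S μ F0 K d f hB
  have : Countable Γ := hB.cnt
  have hfin : IsFiniteMeasure (μ.restrict F0) := ⟨by rw [Measure.restrict_apply_univ]; exact hB.fin⟩
  -- the set V
  have hVo : IsOpen {x : S | ∃ γ : Γ, d (γ • p) x < δ} := by
    have he : {x : S | ∃ γ : Γ, d (γ • p) x < δ} = ⋃ γ : Γ, {x : S | d (γ • p) x < δ} := by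
      ext x
      simp
    rw [he]
    refine isOpen_iUnion fun γ => ?_
    have hc : Continuous (fun x : S => d (γ • p) x) := hB.dc.comp (continuous_const.prodMk continuous_id)
    exact isOpen_lt hc continuous_const
  have hVi : ∀ (g : Γ) (x : S), (∃ γ : Γ, d (γ • p) (g • x) < δ) ↔ ∃ γ : Γ, d (γ • p) x < δ := by
    intro g x
    constructor
    · rintro ⟨γ, h⟩
      refine ⟨g⁻¹ * γ, ?_⟩
      rw [← hB.di g, mul_smul, smul_inv_smul]
      exact h
    · rintro ⟨γ, h⟩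
      refine ⟨g * γ, ?_⟩
      rw [mul_smul, hB.di]
      exact h
  have hVpos : μ {x : S | ∃ γ : Γ, d (γ • p) x < δ} ≠ 0 := by
    refine (hB.pos _ hVo ⟨p, 1, ?_⟩).ne'
    rw [one_smul, hB.dz]
    exact hδ
  have hV0 : (μ.restrict F0) {x : S | ∃ γ : Γ, d (γ • p) x < δ} ≠ 0 := by
    intro h0
    apply hVpos
    rw [Measure.restrict_apply hVo.measurableSet] at h0
    rw [← hunf _ hVo.measurableSet]
    rw [ENNReal.tsum_eq_zero]
    intro g
    have he : F0 ∩ {x : S | g • x ∈ {x : S | ∃ γ : Γ, d (γ • p) x < δ}} = {x : S | ∃ γ : Γ, d (γ • p) x < δ} ∩ F0 := by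
      ext x
      constructor
      · rintro ⟨hx, hg⟩
        exact ⟨(hVi g x).1 hg, hx⟩
      · rintro ⟨hg, hx⟩
        exact ⟨hx, (hVi g x).2 hg⟩
    rw [he]
    exact h0
  have hm1 : Measurable (f 1) := by
    have hc : Continuous (f 1) := hB.fcn.comp (continuous_const.prodMk continuous_id)
    exact hc.measurable
  have hT := hpres (f 1) hm1 (fun γ x => hB.fe γ 1 x) (hB.fm 1)
  obtain ⟨x, hx, n, hn, hxn⟩ := hT.exists_mem_iterate_mem hVo.measurableSet.nullMeasurableSet hV0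
  obtain ⟨γ', hγ'⟩ := EPR_iter Γ S F0 f hB.f0 hB.fa hB.fe hrd x n
  rw [hγ'] at hxn
  obtain ⟨γ0, h0⟩ := hx
  obtain ⟨γ1, h2⟩ := (hVi γ' (f (n : ℝ) x)).1 hxn
  refine ⟨γ0⁻¹ • x, n, γ0⁻¹ * γ1, Nat.one_le_iff_ne_zero.2 hn, ?_, ?_⟩
  · rw [← hB.di γ0, smul_inv_smul]
    exact h0
  · rw [hB.fe, mul_smul, hB.di, hB.ds]
    exact h2

end Pool.Agent.VDE
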